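import Pool.Agent.Helper11.QU.P3
import Pool.Agent.Helper83.Rel.Defs

/-!
# T-REL for quadric bundles: the lemma NZ

The Gram minors of generic vectors have coefficients without common zero on `T` if the coefficients
of all `3 × 3` minors have none.
-/

set_option autoImplicit false

namespace Pool.Agent.Helper17.Rel

open Matrix Pool.Agent.Helper49.QU Pool.Agent.Helper83.Rel

/-- a common zero is a prime ideal; no common zero on `T` -/
theorem noZero_of_primes {R : Type} [CommRing R] {N n : ℕ} (τ : Fin N → R)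
    (T : Set (MvPolynomial (Fin n) R))
    (h : ∀ p : Ideal R, p.IsPrime → (∀ f ∈ T, ∀ m, f.coeff m ∈ p) → ∀ l, τ l ∈ p) :
    NoZero τ T := by
  intro l
  have h1 : τ l ∈ (Ideal.span (Coefs T)).radical := by
    rw [Ideal.radical_eq_sInf, Ideal.mem_sInf]
    rintro p ⟨hp, hpp⟩
    refine h p hpp (fun f hf m => hp (Ideal.subset_span ⟨f, hf, m, rfl⟩)) l
  exact h1

theorem primes_of_noZero {R : Type} [CommRing R] {N n : ℕ} {τ : Fin N → R}
    {T : Set (MvPolynomial (Fin n) R)} (h : NoZero τ T) (p : Ideal R) (hp : p.IsPrime)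
    (hT : ∀ f ∈ T, ∀ m, f.coeff m ∈ p) (l : Fin N) : τ l ∈ p := by
  obtain ⟨s, hs⟩ := h l
  refine hp.mem_of_pow_mem s ((Ideal.span_le.2 ?_) hs)
  rintro _ ⟨f, hf, m, rfl⟩
  exact hT f hf m

section Ring

variable {n r : ℕ} (N : Fin r → ℕ) (R : Type) [CommRing R]

variable (n) in
/-- the old polynomials in the new ring -/
noncomputable def incR : MvPolynomial (Fin n) R →ₐ[R] MvPolynomial (Fin (vn N + n)) R :=
  MvPolynomial.rename (tix N)

variable (n) in
/-- the generic vectors -/
noncomputable def gvR (i : Fin r) : Fin 3 → Fin (N i) → MvPolynomial (Fin (vn N + n)) R :=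
  fun c j => MvPolynomial.X (vix N ⟨i, c, j⟩)

variable {R}

/-- the matrices in the new ring -/
noncomputable def incBR (B : ∀ i : Fin r, Matrix (Fin (N i)) (Fin (N i)) (MvPolynomial (Fin n) R))
    (i : Fin r) : Matrix (Fin (N i)) (Fin (N i)) (MvPolynomial (Fin (vn N + n)) R) :=
  (B i).map (incR n N R)

/-- a specialisation of the old variables and of the new ones -/
theorem exists_specR {F : Type} [CommRing F] (ψ : R →+* F) (x : Fin n → F)
    (V : ∀ i : Fin r, Fin 3 → Fin (N i) → F) :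
    ∃ y : Fin (vn N + n) → F,
      (∀ p, MvPolynomial.eval₂Hom ψ y (incR n N R p) = MvPolynomial.eval₂Hom ψ x p) ∧
      ∀ i c j, MvPolynomial.eval₂Hom ψ y (gvR n N R i c j) = V i c j := by
  obtain ⟨y, h1, h2⟩ : ∃ y : Fin (vn N + n) → F,
      (∀ a, y (Fin.castAdd n a) = V ((Fintype.equivFin (VI N)).symm a).1
        ((Fintype.equivFin (VI N)).symm a).2.1 ((Fintype.equivFin (VI N)).symm a).2.2) ∧
      ∀ j, y (Fin.natAdd (vn N) j) = x j :=
    ⟨Fin.addCases (fun a => V ((Fintype.equivFin (VI N)).symm a).1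
        ((Fintype.equivFin (VI N)).symm a).2.1 ((Fintype.equivFin (VI N)).symm a).2.2) x,
      fun a => Fin.addCases_left a, fun j => Fin.addCases_right j⟩
  refine ⟨y, ?_, ?_⟩
  · intro p
    unfold incR
    rw [MvPolynomial.coe_eval₂Hom, MvPolynomial.eval₂_rename]
    congr 1
    funext j
    exact h2 j
  · intro i c j
    unfold gvR
    rw [MvPolynomial.coe_eval₂Hom, MvPolynomial.eval₂_X]
    have h3 := h1 (Fintype.equivFin (VI N) ⟨i, c, j⟩)
    rw [Equiv.symm_apply_apply] at h3
    exact h3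

/-- **NZ.** a prime ideal which contains all coefficients of the product of the Gram minors
contains all coefficients of all `3 × 3` minors -/
theorem nz_gram (K : Type) [Field K] [CharZero K] [Algebra K R]
    (B : ∀ i : Fin r, Matrix (Fin (N i)) (Fin (N i)) (MvPolynomial (Fin n) R))
    (hB : ∀ i, (B i).IsSymm) (i : Fin r) (p : Ideal R) (hp : p.IsPrime)
    (h : ∀ m, (D1 (incBR N B i) (gvR n N R i) * D2 (incBR N B i) (gvR n N R i) *
      D3 (incBR N B i) (gvR n N R i)).coeff m ∈ p) (f g : Fin 3 → Fin (N i)) (m : Fin n →₀ ℕ) :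
    ((B i).submatrix f g).det.coeff m ∈ p := by
  classical
  by_contra hfg
  let F := FractionRing (MvPolynomial (Fin n) (R ⧸ p))
  let ψ : R →+* F := (algebraMap (MvPolynomial (Fin n) (R ⧸ p)) F).comp
    (MvPolynomial.C.comp (Ideal.Quotient.mk p))
  have hψ : ∀ x ∈ p, ψ x = 0 := by
    intro x hx
    show algebraMap (MvPolynomial (Fin n) (R ⧸ p)) F (MvPolynomial.C (Ideal.Quotient.mk p x)) = 0
    rw [Ideal.Quotient.eq_zero_iff_mem.2 hx, map_zero, map_zero]
  let x : Fin n → F := fun j => algebraMap (MvPolynomial (Fin n) (R ⧸ p)) F (MvPolynomial.X j)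
  have hx : ∀ u : MvPolynomial (Fin n) R, MvPolynomial.eval₂Hom ψ x u =
      algebraMap (MvPolynomial (Fin n) (R ⧸ p)) F (MvPolynomial.map (Ideal.Quotient.mk p) u) := by
    intro u
    have h1 : MvPolynomial.eval₂Hom ψ x = (algebraMap (MvPolynomial (Fin n) (R ⧸ p)) F).comp
        (MvPolynomial.map (Ideal.Quotient.mk p)) := by
      refine MvPolynomial.ringHom_ext (fun a => ?_) fun j => ?_
      · rw [MvPolynomial.coe_eval₂Hom, MvPolynomial.eval₂_C]
        show _ = algebraMap (MvPolynomial (Fin n) (R ⧸ p)) F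
          (MvPolynomial.map (Ideal.Quotient.mk p) (MvPolynomial.C a))
        rw [MvPolynomial.map_C]
        rfl
      · rw [MvPolynomial.coe_eval₂Hom, MvPolynomial.eval₂_X, RingHom.comp_apply,
          MvPolynomial.map_X]
    rw [h1]
    rfl
  have hc : CharZero F := by
    have h1 : Function.Injective (ψ.comp (algebraMap K R)) := RingHom.injective _
    refine ⟨fun a b hab => ?_⟩
    have h2 : ψ.comp (algebraMap K R) (a : K) = ψ.comp (algebraMap K R) (b : K) := by
      rw [map_natCast, map_natCast]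
      exact hab
    exact_mod_cast h1 h2
  set ρ : MvPolynomial (Fin n) R →+* F := MvPolynomial.eval₂Hom ψ x with hρ
  have hsym : ((B i).map ρ).IsSymm := (hB i).map ρ
  have hdet : (((B i).map ρ).submatrix f g).det ≠ 0 := by
    have h1 : (((B i).map ρ).submatrix f g).det = ρ ((B i).submatrix f g).det := by
      rw [RingHom.map_det]
      rfl
    rw [h1, hx, Ne, FaithfulSMul.algebraMap_eq_zero_iff]
    intro h2
    apply hfg
    have h3 := congrArg (MvPolynomial.coeff m) h2
    rw [MvPolynomial.coeff_map, MvPolynomial.coeff_zero] at h3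
    exact Ideal.Quotient.eq_zero_iff_mem.1 h3
  obtain ⟨V, hV1, hV2⟩ := exists_three ((B i).map ρ) hsym f g hdet
  obtain ⟨hd1, hd2, hd3⟩ := Pool.Agent.Helper11.QU.D_ne_zero _ V hV1 hV2
  obtain ⟨y, hy1, hy2⟩ := exists_specR N ψ x
    (fun i' => if h : i' = i then h ▸ V else fun _ _ => 0)
  set σ : MvPolynomial (Fin (vn N + n)) R →+* F := MvPolynomial.eval₂Hom ψ y with hσ
  have hgv : (fun c j => σ (gvR n N R i c j)) = V := by
    funext c j
    rw [hy2, dif_pos rfl]
  have hm : (incBR N B i).map σ = (B i).map ρ := by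
    ext j l
    exact hy1 _
  have h3 : σ (D1 (incBR N B i) (gvR n N R i) * D2 (incBR N B i) (gvR n N R i) *
      D3 (incBR N B i) (gvR n N R i)) = 0 := by
    rw [hσ, MvPolynomial.coe_eval₂Hom, MvPolynomial.eval₂_eq']
    refine Finset.sum_eq_zero fun d _ => ?_
    rw [hψ _ (h d), zero_mul]
  rw [map_mul, map_mul, Pool.Agent.Helper11.QU.map_D1, Pool.Agent.Helper11.QU.map_D2,
    Pool.Agent.Helper11.QU.map_D3, hgv, hm] at h3
  exact mul_ne_zero (mul_ne_zero hd1 hd2) hd3 h3

/-- NZ for the second Gram minor -/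
theorem nz_gram_two (K : Type) [Field K] [CharZero K] [Algebra K R]
    (B : ∀ i : Fin r, Matrix (Fin (N i)) (Fin (N i)) (MvPolynomial (Fin n) R))
    (hB : ∀ i, (B i).IsSymm) (i : Fin r) (p : Ideal R) (hp : p.IsPrime)
    (h : ∀ m, (D2 (incBR N B i) (gvR n N R i)).coeff m ∈ p) (f g : Fin 3 → Fin (N i))
    (m : Fin n →₀ ℕ) : ((B i).submatrix f g).det.coeff m ∈ p := by
  refine nz_gram N K B hB i p hp (fun m' => ?_) f g m
  have h1 : D2 (incBR N B i) (gvR n N R i) ∈ Ideal.map MvPolynomial.C p :=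
    MvPolynomial.mem_map_C_iff.2 h
  have h2 : D1 (incBR N B i) (gvR n N R i) * D2 (incBR N B i) (gvR n N R i) *
      D3 (incBR N B i) (gvR n N R i) ∈ Ideal.map MvPolynomial.C p :=
    Ideal.mul_mem_right _ _ (Ideal.mul_mem_left _ _ h1)
  exact MvPolynomial.mem_map_C_iff.1 h2 m'

end Ring

end Pool.Agent.Helper17.Rel
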