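import Pool.Agent.Helper83.Rel.Defs
import Pool.Agent.Helper43.CB.Start

/-!
# T-REL, piece R1: scaling by the class group
-/

set_option autoImplicit false

namespace Pool.Agent.Helper17.Rel

open NumberField Pool.Agent.Helper4.CB Pool.Agent.Helper69.CB

theorem ideal_step {R : Type*} [CommRing R] [IsDomain R] {N : ℕ} (s : Fin N → R) {I : Ideal R}
    {y z : R} (hz : z ≠ 0) (h : Ideal.span {y} * Ideal.span (Set.range s) = Ideal.span {z} * I) :
    ∃ w : Fin N → R, (∀ i, y * s i = z * w i) ∧ ∀ p : Ideal R, (∀ i, w i ∈ p) → I ≤ p := by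
  have hw : ∀ i, ∃ w : R, y * s i = z * w := by
    intro i
    have h1 : y * s i ∈ Ideal.span {y} * Ideal.span (Set.range s) :=
      Ideal.mul_mem_mul (Ideal.mem_span_singleton_self y) (Ideal.subset_span ⟨i, rfl⟩)
    rw [h] at h1
    exact Ideal.mem_span_singleton.1 (Ideal.mul_le_left h1)
  choose w hw using hw
  refine ⟨w, hw, fun p hp => ?_⟩
  have h4 : Ideal.span {z} * I ≤ Ideal.span {z} * p := by
    rw [← h, Ideal.span_mul_span', Ideal.span_le]
    rintro _ ⟨u, hu, v, ⟨i, rfl⟩, rfl⟩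
    rw [Set.mem_singleton_iff] at hu
    subst hu
    show u * s i ∈ _
    rw [hw i]
    exact Ideal.mul_mem_mul (Ideal.mem_span_singleton_self z) (hp i)
  intro u hu
  have h7 : z * u ∈ Ideal.span {z} * p :=
    h4 (Ideal.mul_mem_mul (Ideal.mem_span_singleton_self z) hu)
  rw [Ideal.mem_span_singleton_mul] at h7
  obtain ⟨v, hv, hvu⟩ := h7
  rw [← mul_left_cancel₀ hz hvu]
  exact hv

theorem class_step {R : Type*} [CommRing R] [IsDedekindDomain R] {N : ℕ} (s : Fin N → R)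
    (I : ClassGroup R → nonZeroDivisors (Ideal R)) (hI : ∀ c, ClassGroup.mk0 (I c) = c)
    (hs : ∃ i, s i ≠ 0) : ∃ (c : ClassGroup R) (y z : R) (w : Fin N → R), y ≠ 0 ∧ z ≠ 0 ∧
      (∀ i, y * s i = z * w i) ∧ ∀ p : Ideal R, (∀ i, w i ∈ p) → (I c : Ideal R) ≤ p := by
  obtain ⟨i0, hi0⟩ := hs
  have hA0 : Ideal.span (Set.range s) ≠ ⊥ := by
    intro h
    have : s i0 ∈ Ideal.span (Set.range s) := Ideal.subset_span ⟨i0, rfl⟩
    rw [h, Ideal.mem_bot] at this
    exact hi0 this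
  have hcl := hI (ClassGroup.mk0 ⟨_, mem_nonZeroDivisors_of_ne_zero hA0⟩)
  rw [eq_comm, ClassGroup.mk0_eq_mk0_iff] at hcl
  obtain ⟨y, z, hy, hz, hyz⟩ := hcl
  obtain ⟨w, h1, h2⟩ := ideal_step s hz hyz
  exact ⟨_, y, z, w, hy, hz, h1, h2⟩

/-- **R1.** scaling by the class group: at all bad places the coordinates are integral and one of
them is a unit. -/
theorem exists_scale (K : Type) [Field K] [NumberField K] (N : ℕ) : ∃ J0 : ℕ, ∀ J, J0 ≤ J →
    ∀ t : Fin N → K, t ≠ 0 → ∃ l : K, l ≠ 0 ∧ ∀ p : Pl K, Bad J p →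
      (∀ i, vl p (l * t i) ≤ 1) ∧ ∃ i, vl p (l * t i) = 1 := by
  classical
  choose I hI using ClassGroup.mk0_surjective (R := 𝓞 K)
  have hx : ∀ c, ∃ x ∈ (I c : Ideal (𝓞 K)), x ≠ 0 := fun c =>
    Submodule.exists_mem_ne_zero_of_ne_bot (nonZeroDivisors.ne_zero (I c).2)
  choose x hx hx0 using hx
  obtain ⟨J0, hJ0⟩ := Pool.Agent.Helper43.CB.start K
    (Finset.univ.image fun c => algebraMap (𝓞 K) K (x c)) 0
  refine ⟨J0, fun J hJ t ht => ?_⟩
  obtain ⟨b, hb⟩ := IsLocalization.exist_integer_multiples_of_finite (nonZeroDivisors (𝓞 K)) t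
  choose s hs using hb
  have hb0 : algebraMap (𝓞 K) K b ≠ 0 := by
    have := nonZeroDivisors.ne_zero b.2
    rwa [Ne, FaithfulSMul.algebraMap_eq_zero_iff]
  have hs' : ∀ i, algebraMap (𝓞 K) K (s i) = algebraMap (𝓞 K) K b * t i := fun i => by
    rw [hs i, Algebra.smul_def]
  obtain ⟨i0, hi0⟩ := Function.ne_iff.1 ht
  have hsi0 : s i0 ≠ 0 := by
    intro h
    have := hs' i0
    rw [h, map_zero] at this
    exact mul_ne_zero hb0 hi0 this.symm
  obtain ⟨c, y, z, w, hy, hz, hw, hp⟩ := class_step s I hI ⟨i0, hsi0⟩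
  have hyK : algebraMap (𝓞 K) K y ≠ 0 := by rwa [Ne, FaithfulSMul.algebraMap_eq_zero_iff]
  have hzK : algebraMap (𝓞 K) K z ≠ 0 := by rwa [Ne, FaithfulSMul.algebraMap_eq_zero_iff]
  have hwK : ∀ i, algebraMap (𝓞 K) K y / algebraMap (𝓞 K) K z * algebraMap (𝓞 K) K b * t i =
      algebraMap (𝓞 K) K (w i) := by
    intro i
    have h1 : algebraMap (𝓞 K) K y * algebraMap (𝓞 K) K (s i) =
        algebraMap (𝓞 K) K z * algebraMap (𝓞 K) K (w i) := by
      rw [← map_mul, hw i, map_mul]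
    rw [mul_assoc, ← hs', div_mul_eq_mul_div, h1, mul_div_cancel_left₀ _ hzK]
  refine ⟨algebraMap (𝓞 K) K y / algebraMap (𝓞 K) K z * algebraMap (𝓞 K) K b,
    mul_ne_zero (div_ne_zero hyK hzK) hb0, fun p hpb => ?_⟩
  have h1 : ∀ i, vl p (algebraMap (𝓞 K) K y / algebraMap (𝓞 K) K z * algebraMap (𝓞 K) K b * t i)
      ≤ 1 := by
    intro i
    rw [hwK]
    exact p.valuation_le_one (w i)
  refine ⟨h1, ?_⟩
  by_contra hcon
  push Not at hcon
  have h2 : ∀ i, w i ∈ p.asIdeal := by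
    intro i
    have h3 := lt_of_le_of_ne (h1 i) (hcon i)
    rw [hwK] at h3
    exact (p.valuation_lt_one_iff_mem (w i)).1 h3
  have h8 := (hJ0 J hJ p hpb).2 (algebraMap (𝓞 K) K (x c))
    (Finset.mem_image_of_mem _ (Finset.mem_univ c))
    (by
      rw [Ne, FaithfulSMul.algebraMap_eq_zero_iff]
      exact hx0 c)
  have h9 := (p.valuation_lt_one_iff_mem (K := K) (x c)).2 (hp p.asIdeal h2 (hx c))
  exact absurd h8 (ne_of_lt h9)

end Pool.Agent.Helper17.Rel
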